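import Pool.Agent.Helper18.SG.Goals2

/-!
# Project SG, second part: GI (adding simple points)
-/

set_option autoImplicit false

namespace Pool.Agent.Helper77.SG

open Finset Pool.Agent.Lead.Sh Pool.Agent.Helper43.Ah Pool.Agent.Helper43.Gm
open Helper18.Cusp (Red rr YB kap GoodFor Concl)
open Helper18.Np (fm)
open Pool.Agent.Helper18.SG

/-- GI. From injectivity to maximal rank. -/
theorem goalGI : GoalGI := by
  classical
  intro M D K s mm hM hKs hs H
  refine ⟨fun h => H s mm hKs (fun _ _ => rfl) hs h, fun h => ?_⟩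
  set B := (K ∪ s).sup id + 1 with hB
  set t := D.card - ∑ k ∈ K ∪ s, (mm k + 1).choose 2 with ht
  set mp : ℕ → ℕ := fun k => if k < B then mm k else 1 with hmp
  have hlt : ∀ k ∈ K ∪ s, k < B := by
    intro k hk
    have : k ≤ (K ∪ s).sup id := le_sup (f := id) hk
    omega
  have hdj : Disjoint (K ∪ s) (Ico B (B + t)) := by
    rw [disjoint_left]
    intro k hk hk2
    rw [mem_Ico] at hk2
    have := hlt k hk
    omega
  have hmps : ∀ k ∈ K ∪ s, mm k = mp k := by
    intro k hk
    simp only [hmp]
    rw [if_pos (hlt k hk)]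
  have hsum : ∑ k ∈ K ∪ (s ∪ Ico B (B + t)), (mp k + 1).choose 2 = D.card := by
    rw [← union_assoc, sum_union hdj]
    have h1 : ∑ k ∈ K ∪ s, (mp k + 1).choose 2 = ∑ k ∈ K ∪ s, (mm k + 1).choose 2 :=
      sum_congr rfl (fun k hk => by rw [hmps k hk])
    have h2 : ∑ k ∈ Ico B (B + t), (mp k + 1).choose 2 = t := by
      rw [sum_congr rfl (g := fun _ => 1)]
      · rw [sum_const, smul_eq_mul, Nat.card_Ico, Nat.add_sub_cancel_left, mul_one]
      · intro k hk
        rw [mem_Ico] at hk
        simp only [hmp]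
        rw [if_neg (by omega)]
        rfl
    rw [h1, h2]
    omega
  have hI : Inj D (rows mp (K ∪ (s ∪ Ico B (B + t)))) := by
    refine H _ mp ?_ ?_ ?_ hsum.ge
    · rw [disjoint_union_right]
      exact ⟨hKs, (disjoint_union_left.1 hdj).1⟩
    · intro k hk
      exact (hmps k (mem_union_left _ hk)).symm
    · intro k hk
      rcases mem_union.1 hk with hk | hk
      · rw [← hmps k (mem_union_right _ hk)]
        exact hs k hk
      · rw [mem_Ico] at hk
        simp only [hmp]
        rw [if_neg (by omega)]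
        exact hM
  obtain ⟨P, hP⟩ := hI
  have hInd : Ind D (rows mp (K ∪ (s ∪ Ico B (B + t)))) := ⟨P, hP.ind (by
    rw [Pool.Agent.Lead.Sh.card_rows, hsum])⟩
  refine hInd.mono subset_rfl ?_
  rw [rows_congr hmps]
  exact rows_mono (by rw [← union_assoc]; exact subset_union_left)

end Pool.Agent.Helper77.SG
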